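import Pool.Agent.J4H92.TP.Stm

/-! (GD): a motion that does not preserve the distance of two neighbours of a vertex is
obstructed. -/

set_option autoImplicit false

namespace Pool.Agent.J4H76.TR

open SimpleGraph Module
open Pool.Agent.J4H92.TP (Zs Gd Ob S_GD)

noncomputable section

section
variable {W : Type} [Fintype W]

/-- the force of a stress -/
def FF (w : W → W → ℝ) (q : W → Fin 3 → ℝ) (j : W) : Fin 3 → ℝ := ∑ l, w j l • (q j - q l)

lemma FF_dot1 (w : W → W → ℝ) (q : W → Fin 3 → ℝ) (j : W) (y : Fin 3 → ℝ) :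
    FF w q j ⬝ᵥ y = ∑ l, w j l * ((q j - q l) ⬝ᵥ y) := by
  unfold FF
  rw [sum_dotProduct]
  exact Finset.sum_congr rfl fun l _ => by rw [smul_dotProduct, smul_eq_mul]

lemma FF_dot {w : W → W → ℝ} (hw : ∀ u v, w u v = w v u) (q y : W → Fin 3 → ℝ) :
    2 * ∑ j, FF w q j ⬝ᵥ y j = ∑ j, ∑ l, w j l * ((q j - q l) ⬝ᵥ (y j - y l)) := by
  have e1 : ∑ j, FF w q j ⬝ᵥ y j = ∑ j, ∑ l, w j l * ((q j - q l) ⬝ᵥ y j) :=
    Finset.sum_congr rfl fun j _ => FF_dot1 w q j (y j)
  have e2 : ∑ j, ∑ l, w j l * ((q j - q l) ⬝ᵥ (y j - y l)) =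
      ∑ j, ∑ l, w j l * ((q j - q l) ⬝ᵥ y j) - ∑ j, ∑ l, w j l * ((q j - q l) ⬝ᵥ y l) := by
    rw [← Finset.sum_sub_distrib]
    refine Finset.sum_congr rfl fun j _ => ?_
    rw [← Finset.sum_sub_distrib]
    refine Finset.sum_congr rfl fun l _ => ?_
    rw [dotProduct_sub]; ring
  have e3 : ∑ j, ∑ l, w j l * ((q j - q l) ⬝ᵥ y l) =
      - ∑ j, ∑ l, w j l * ((q j - q l) ⬝ᵥ y j) := by
    rw [Finset.sum_comm, ← Finset.sum_neg_distrib]
    refine Finset.sum_congr rfl fun j _ => ?_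
    rw [← Finset.sum_neg_distrib]
    refine Finset.sum_congr rfl fun l _ => ?_
    rw [hw l j, ← neg_sub (q j) (q l), neg_dotProduct]; ring
  rw [e2, e3, e1]; ring

/-- the obstruction -/
lemma mlem (H : SimpleGraph W) {p x : W → Fin 3 → ℝ} {w : W → W → ℝ} (hw : ∀ u v, w u v = w v u)
    (hs : ∀ u v, ¬ H.Adj u v → w u v = 0) {e y : W → Fin 3 → ℝ}
    (he : ∀ j, ∃ c : ℝ, FF w p j = c • e j) (h1 : ∀ j, e j ⬝ᵥ y j = 0)
    (h2 : ∀ u v, H.Adj u v → (p u - p v) ⬝ᵥ (y u - y v) + (e u - e v) ⬝ᵥ (x u - x v) = 0) :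
    ∑ j, FF w x j ⬝ᵥ e j = 0 := by
  have a1 : ∑ j, FF w p j ⬝ᵥ y j = 0 := by
    refine Finset.sum_eq_zero fun j _ => ?_
    obtain ⟨c, hc⟩ := he j
    rw [hc, smul_dotProduct, h1, smul_zero]
  have a2 := FF_dot hw p y
  have a3 := FF_dot hw x e
  have a4 : ∑ j, ∑ l, w j l * ((p j - p l) ⬝ᵥ (y j - y l)) +
      ∑ j, ∑ l, w j l * ((x j - x l) ⬝ᵥ (e j - e l)) = 0 := by
    rw [← Finset.sum_add_distrib]
    refine Finset.sum_eq_zero fun j _ => ?_
    rw [← Finset.sum_add_distrib]
    refine Finset.sum_eq_zero fun l _ => ?_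
    by_cases h : H.Adj j l
    · have h3 := h2 j l h
      rw [dotProduct_comm (e j - e l)] at h3
      rw [← mul_add, h3, mul_zero]
    · rw [hs j l h]; ring
  rw [a1, mul_zero] at a2
  linarith

/-- the weight of one edge -/
def we [DecidableEq W] (u v a b : W) : ℝ :=
  (if a = u then if b = v then 1 else 0 else 0) + (if a = v then if b = u then 1 else 0 else 0)

omit [Fintype W] in
lemma we_symm [DecidableEq W] (u v a b : W) : we u v a b = we u v b a := by
  unfold we
  split_ifs <;> simp_all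

omit [Fintype W] in
lemma we_supp [DecidableEq W] (H : SimpleGraph W) {u v : W} (h : H.Adj u v) (a b : W)
    (hn : ¬ H.Adj a b) : we u v a b = 0 := by
  unfold we
  have h1 : (if a = u then if b = v then (1 : ℝ) else 0 else 0) = 0 := by
    split_ifs with g1 g2
    · rw [g1, g2] at hn; exact absurd h hn
    · rfl
    · rfl
  have h2 : (if a = v then if b = u then (1 : ℝ) else 0 else 0) = 0 := by
    split_ifs with g1 g2
    · rw [g1, g2] at hn; exact absurd h.symm hn
    · rfl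
    · rfl
  rw [h1, h2, add_zero]

lemma we_sum [DecidableEq W] (u v : W) (A : W → W → ℝ) :
    ∑ j, ∑ l, we u v j l * A j l = A u v + A v u := by
  unfold we
  simp only [add_mul, Finset.sum_add_distrib, ite_mul, one_mul, zero_mul]
  congr 1
  · rw [Finset.sum_eq_single u]
    · simp
    · intro b _ hb; simp [hb]
    · intro h; exact absurd (Finset.mem_univ _) h
  · rw [Finset.sum_eq_single v]
    · simp
    · intro b _ hb; simp [hb]
    · intro h; exact absurd (Finset.mem_univ _) h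

lemma FF_we [DecidableEq W] {u v : W} (h : u ≠ v) (q : W → Fin 3 → ℝ) :
    FF (we u v) q u = q u - q v := by
  unfold FF we
  rw [Finset.sum_eq_single v]
  · simp [h]
  · intro b _ hb; simp [hb, h]
  · intro h; exact absurd (Finset.mem_univ _) h

lemma FF_add (w w' : W → W → ℝ) (s : ℝ) (q : W → Fin 3 → ℝ) (j : W) :
    FF (fun a b => w a b + s * w' a b) q j = FF w q j + s • FF w' q j := by
  unfold FF
  rw [Finset.smul_sum, ← Finset.sum_add_distrib]
  refine Finset.sum_congr rfl fun l _ => ?_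
  rw [add_smul, mul_smul]

/-- functionals are sums of dot products -/
lemma fun_dot [DecidableEq W] (f : (W → Fin 3 → ℝ) →ₗ[ℝ] ℝ) : ∃ y : W → Fin 3 → ℝ, ∀ G,
    f G = ∑ j, G j ⬝ᵥ y j := by
  refine ⟨fun j k => f (Pi.single j (Pi.single k 1)), fun G => ?_⟩
  have e : G = ∑ j, ∑ k, G j k • (Pi.single j (Pi.single k 1) : W → Fin 3 → ℝ) := by
    funext a b
    simp only [Finset.sum_apply, Pi.smul_apply, smul_eq_mul]
    rw [Finset.sum_eq_single a]
    · rw [Finset.sum_eq_single b]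
      · simp
      · intro c _ hc
        rw [Pi.single_eq_same, Pi.single_eq_of_ne hc.symm, mul_zero]
      · intro h; exact absurd (Finset.mem_univ _) h
    · intro c _ hc
      refine Finset.sum_eq_zero fun k _ => ?_
      rw [Pi.single_eq_of_ne hc.symm, Pi.zero_apply, mul_zero]
    · intro h; exact absurd (Finset.mem_univ _) h
  conv_lhs => rw [e]
  rw [map_sum]
  refine Finset.sum_congr rfl fun j _ => ?_
  rw [map_sum]
  refine Finset.sum_congr rfl fun k _ => ?_
  rw [map_smul, smul_eq_mul]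

/-- the forces orthogonal to the motions come from stresses -/
lemma rng (H : SimpleGraph W) (p F : W → Fin 3 → ℝ)
    (hF : ∀ z ∈ Zs H p Set.univ, ∑ j, F j ⬝ᵥ z j = 0) :
    ∃ w : W → W → ℝ, (∀ u v, w u v = w v u) ∧ (∀ u v, ¬ H.Adj u v → w u v = 0) ∧
      FF w p = F := by
  classical
  obtain ⟨R, hR⟩ : ∃ R : Submodule ℝ (W → Fin 3 → ℝ), ∀ G, G ∈ R ↔
      ∃ w : W → W → ℝ, (∀ u v, w u v = w v u) ∧ (∀ u v, ¬ H.Adj u v → w u v = 0) ∧
        FF w p = G := by
    refine ⟨{ carrier := {G | ∃ w : W → W → ℝ, (∀ u v, w u v = w v u) ∧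
                (∀ u v, ¬ H.Adj u v → w u v = 0) ∧ FF w p = G}
              zero_mem' := ⟨fun _ _ => 0, fun _ _ => rfl, fun _ _ _ => rfl, by
                funext j; simp [FF]⟩
              add_mem' := ?_
              smul_mem' := ?_ }, fun G => Iff.rfl⟩
    · rintro G G' ⟨w, a1, a2, a3⟩ ⟨w', b1, b2, b3⟩
      refine ⟨fun a b => w a b + 1 * w' a b, fun u v => ?_, fun u v h => ?_, ?_⟩
      · show w u v + 1 * w' u v = w v u + 1 * w' v u
        rw [a1, b1]
      · show w u v + 1 * w' u v = 0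
        rw [a2 u v h, b2 u v h]; ring
      · funext j
        rw [FF_add, a3, b3, one_smul]; rfl
    · rintro c G ⟨w, a1, a2, a3⟩
      refine ⟨fun a b => 0 + c * w a b, fun u v => ?_, fun u v h => ?_, ?_⟩
      · show 0 + c * w u v = 0 + c * w v u
        rw [a1]
      · show 0 + c * w u v = 0
        rw [a2 u v h]; ring
      · funext j
        have := FF_add (fun _ _ => (0 : ℝ)) w c p j
        rw [this, a3]
        simp [FF]
  rw [← hR]
  by_contra hn
  obtain ⟨f, hf1, hf2⟩ := Submodule.exists_le_ker_of_notMem hn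
  obtain ⟨y, hy⟩ := fun_dot f
  have hyZ : y ∈ Zs H p Set.univ := by
    refine ⟨fun u v huv => ?_, fun x hx => absurd (Set.mem_univ x) hx⟩
    have m1 : FF (we u v) p ∈ R := (hR _).2 ⟨we u v, we_symm u v, we_supp H huv, rfl⟩
    have m2 := hf2 m1
    rw [LinearMap.mem_ker, hy] at m2
    have m3 := FF_dot (we_symm u v) p y
    rw [m2, we_sum] at m3
    have m4 : (p v - p u) ⬝ᵥ (y v - y u) = (p u - p v) ⬝ᵥ (y u - y v) := by
      rw [← neg_sub (p u) (p v), ← neg_sub (y u) (y v), neg_dotProduct, dotProduct_neg, neg_neg]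
    rw [m4] at m3
    linarith
  exact hf1 (by rw [hy]; exact hF y hyZ)

end

/-- (GD) -/
theorem t_GD : S_GD := by
  intro W _ H p e x hg hx hijk
  classical
  obtain ⟨i, j0, k0, hij, hik, hne⟩ := hijk
  obtain ⟨Z, hZ⟩ : ∃ Z, Z = Zs H p Set.univ := ⟨_, rfl⟩
  -- the components
  obtain ⟨Lf, hLf⟩ : ∃ L : (W → Fin 3 → ℝ) → (Z →ₗ[ℝ] (W → ℝ)),
      ∀ F z j, L F z j = F j ⬝ᵥ z.1 j := by
    refine ⟨fun F => { toFun := fun z j => F j ⬝ᵥ z.1 j
                       map_add' := fun z z' => ?_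
                       map_smul' := fun c z => ?_ }, fun F z j => rfl⟩
    · funext j
      show F j ⬝ᵥ (z.1 + z'.1) j = F j ⬝ᵥ z.1 j + F j ⬝ᵥ z'.1 j
      rw [Pi.add_apply, dotProduct_add]
    · funext j
      show F j ⬝ᵥ (c • z.1) j = c * (F j ⬝ᵥ z.1 j)
      rw [Pi.smul_apply, dotProduct_smul, smul_eq_mul]
  -- the functionals
  obtain ⟨f, hf1, hf2⟩ : ∃ f : W → ℝ, (∀ z ∈ Z, ∑ j, f j * (e j ⬝ᵥ z j) = 0) ∧
      ∀ j, f j ≠ 0 := by
    obtain ⟨Φ, hΦ⟩ : ∃ Φ : Submodule ℝ (W → ℝ), ∀ f, f ∈ Φ ↔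
        ∀ z ∈ Z, ∑ j, f j * (e j ⬝ᵥ z j) = 0 := by
      refine ⟨{ carrier := {f | ∀ z ∈ Z, ∑ j, f j * (e j ⬝ᵥ z j) = 0}
                zero_mem' := by intro z _; simp
                add_mem' := ?_
                smul_mem' := ?_ }, fun f => Iff.rfl⟩
      · intro f f' h h' z hz
        have := h z hz
        have := h' z hz
        simp only [Pi.add_apply, add_mul, Finset.sum_add_distrib]
        linarith
      · intro c f h z hz
        have := h z hz
        simp only [Pi.smul_apply, smul_eq_mul, mul_assoc, ← Finset.mul_sum]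
        rw [this, mul_zero]
    have key := Module.Dual.exists_forall_mem_ne_zero_of_forall_exists Φ
      (fun j : W => (LinearMap.proj j : (W → ℝ) →ₗ[ℝ] ℝ)) ?_
    · obtain ⟨f, h1, h2⟩ := key
      exact ⟨f, (hΦ f).1 h1, h2⟩
    · intro j
      have hn : (Pi.single j 1 : W → ℝ) ∉ LinearMap.range (Lf e) := by
        rintro ⟨z, hz⟩
        have z0 : z.1 = 0 := hg j z.1 (by rw [← hZ]; exact z.2) fun l hl => by
          rw [← hLf, hz, Pi.single_eq_of_ne hl]
        have := congrFun hz j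
        rw [hLf, z0, Pi.single_eq_same, Pi.zero_apply, dotProduct_zero] at this
        exact zero_ne_one this
      obtain ⟨g, hg1, hg2⟩ := Submodule.exists_le_ker_of_notMem hn
      refine ⟨fun l => g (Pi.single l 1), (hΦ _).2 fun z hz => ?_, hg1⟩
      have h1 := hg2 ⟨⟨z, hz⟩, rfl⟩
      rw [LinearMap.mem_ker] at h1
      have h2 : Lf e ⟨z, hz⟩ = ∑ l, (e l ⬝ᵥ z l) • (Pi.single l 1 : W → ℝ) := by
        funext a
        rw [hLf, Finset.sum_apply, Finset.sum_eq_single a]
        · simp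
        · intro b _ hb
          rw [Pi.smul_apply, Pi.single_eq_of_ne hb.symm, smul_zero]
        · intro h; exact absurd (Finset.mem_univ _) h
      rw [h2, map_sum] at h1
      rw [← h1]
      refine Finset.sum_congr rfl fun l _ => ?_
      rw [map_smul, smul_eq_mul, mul_comm]
  -- the stress of `f e`
  obtain ⟨w1, s1, s2, s3⟩ := rng H p (fun j => f j • e j) (by
    intro z hz
    rw [← hZ] at hz
    rw [← hf1 z hz]
    exact Finset.sum_congr rfl fun j _ => by rw [smul_dotProduct, smul_eq_mul])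
  -- the stress on two edges
  obtain ⟨w0, hw0⟩ : ∃ w0 : W → W → ℝ, w0 = fun a b => we i j0 a b + 1 * we i k0 a b := ⟨_, rfl⟩
  have o1 : ∀ u v, w0 u v = w0 v u := by
    intro u v; rw [hw0]
    show we i j0 u v + 1 * we i k0 u v = we i j0 v u + 1 * we i k0 v u
    rw [we_symm i j0 u v, we_symm i k0 u v]
  have o2 : ∀ u v, ¬ H.Adj u v → w0 u v = 0 := by
    intro u v h; rw [hw0]
    show we i j0 u v + 1 * we i k0 u v = 0
    rw [we_supp H hij u v h, we_supp H hik u v h]; ring
  have o3 : ∀ q : W → Fin 3 → ℝ, FF w0 q i = (q i - q j0) + (q i - q k0) := by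
    intro q
    rw [hw0, FF_add, FF_we hij.ne, FF_we hik.ne, one_smul]
  have o4 : FF w0 p i ⬝ᵥ FF w0 x i ≠ 0 := by
    rw [o3, o3]
    have x1 := hx.1 i j0 hij
    have x2 := hx.1 i k0 hik
    intro h
    apply hne
    have key : ∀ a b a' b' : Fin 3 → ℝ, a ⬝ᵥ a' = 0 → b ⬝ᵥ b' = 0 →
        (a + b) ⬝ᵥ (a' + b') = 0 → (b - a) ⬝ᵥ (b' - a') = 0 := by
      intro a b a' b' h1 h2 h3
      rw [add_dotProduct, dotProduct_add, dotProduct_add, h1, h2] at h3
      rw [sub_dotProduct, dotProduct_sub, dotProduct_sub, h1, h2]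
      linarith
    have e1 : p j0 - p k0 = (p i - p k0) - (p i - p j0) := by abel
    have e2 : x j0 - x k0 = (x i - x k0) - (x i - x j0) := by abel
    rw [e1, e2]
    exact key _ _ _ _ x1 x2 h
  -- injectivity
  have inj1 : Function.Injective (Lf (FF w1 p)) := by
    rw [injective_iff_map_eq_zero]
    intro z hz
    have : z.1 = 0 := hg i z.1 (by rw [← hZ]; exact z.2) fun l _ => by
      have h1 := congrFun hz l
      rw [hLf, s3, smul_dotProduct, smul_eq_mul, Pi.zero_apply] at h1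
      exact (mul_eq_zero.1 h1).resolve_left (hf2 l)
    exact Subtype.ext this
  obtain ⟨M, hM⟩ := LinearMap.exists_leftInverse_of_injective _ (LinearMap.ker_eq_bot.2 inj1)
  obtain ⟨N, hN⟩ : ∃ N : Module.End ℝ Z, N = M ∘ₗ Lf (FF w0 p) := ⟨_, rfl⟩
  have fin1 : Set.Finite {s : ℝ | N.HasEigenvalue (-s⁻¹)} := by
    refine Set.Finite.preimage (f := fun s : ℝ => -s⁻¹) ?_ (Module.End.finite_hasEigenvalue N)
    intro a _ b _ hab
    exact inv_injective (neg_injective hab)
  obtain ⟨P, hP⟩ : ∃ P : Polynomial ℝ, P = Polynomial.C (FF w0 p i ⬝ᵥ FF w0 x i) *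
      Polynomial.X ^ 2 + Polynomial.C (FF w1 p i ⬝ᵥ FF w0 x i + FF w0 p i ⬝ᵥ FF w1 x i) *
      Polynomial.X + Polynomial.C (FF w1 p i ⬝ᵥ FF w1 x i) := ⟨_, rfl⟩
  have P0 : P ≠ 0 := by
    intro h
    have := congrArg (fun Q => Polynomial.coeff Q 2) h
    rw [hP] at this
    simp [Polynomial.coeff_X, Polynomial.coeff_C] at this
    exact o4 this
  have fin2 : Set.Finite {s : ℝ | P.IsRoot s} := Polynomial.finite_setOfPred_isRoot P0
  obtain ⟨s, hs⟩ := ((fin1.union fin2).union (Set.finite_singleton (0 : ℝ))).infinite_compl.nonempty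
  rw [Set.mem_compl_iff, Set.mem_union, Set.mem_union, not_or, not_or] at hs
  obtain ⟨⟨g1, g2⟩, g3⟩ := hs
  have g3' : s ≠ 0 := g3
  -- the good stress
  obtain ⟨w, hw⟩ : ∃ w : W → W → ℝ, w = fun a b => w1 a b + s * w0 a b := ⟨_, rfl⟩
  have r1 : ∀ u v, w u v = w v u := by
    intro u v; rw [hw]
    show w1 u v + s * w0 u v = w1 v u + s * w0 v u
    rw [s1, o1]
  have r2 : ∀ u v, ¬ H.Adj u v → w u v = 0 := by
    intro u v h; rw [hw]
    show w1 u v + s * w0 u v = 0
    rw [s2 u v h, o2 u v h]; ring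
  have r3 : ∀ q j, FF w q j = FF w1 q j + s • FF w0 q j := by
    intro q j; rw [hw, FF_add]
  have good : Gd Z (FF w p) := by
    intro z hz h
    by_contra hz0
    apply g1
    have h1 : Lf (FF w1 p) ⟨z, hz⟩ + s • Lf (FF w0 p) ⟨z, hz⟩ = 0 := by
      funext a
      have := h a
      rw [r3, add_dotProduct, smul_dotProduct] at this
      rw [Pi.add_apply, Pi.smul_apply, hLf, hLf]
      exact this
    have h2 := congrArg M h1
    rw [map_add, map_smul, map_zero] at h2
    have h3 : M (Lf (FF w1 p) ⟨z, hz⟩) = ⟨z, hz⟩ := by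
      have := LinearMap.congr_fun hM ⟨z, hz⟩
      exact this
    have h4 : M (Lf (FF w0 p) ⟨z, hz⟩) = N ⟨z, hz⟩ := by rw [hN]; rfl
    rw [h3, h4] at h2
    refine Module.End.hasEigenvalue_of_hasEigenvector (x := ⟨z, hz⟩) ⟨?_, ?_⟩
    · rw [Module.End.mem_eigenspace_iff]
      have h5 : s • N ⟨z, hz⟩ = -(⟨z, hz⟩ : Z) := eq_neg_of_add_eq_zero_right h2
      have h6 := congrArg (fun v => s⁻¹ • v) h5
      simp only [smul_smul, inv_mul_cancel₀ g3', one_smul] at h6
      rw [h6, smul_neg, neg_smul]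
    · intro h5
      exact hz0 (congrArg Subtype.val h5)
  have nz : FF w p i ⬝ᵥ FF w x i ≠ 0 := by
    intro h
    apply g2
    show P.IsRoot s
    rw [Polynomial.IsRoot, hP]
    simp only [Polynomial.eval_add, Polynomial.eval_mul, Polynomial.eval_C, Polynomial.eval_X,
      Polynomial.eval_pow]
    rw [r3, r3, add_dotProduct, dotProduct_add, dotProduct_add, smul_dotProduct, smul_dotProduct,
      dotProduct_smul, dotProduct_smul] at h
    simp only [smul_eq_mul] at h
    linear_combination h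
  rw [← hZ]
  by_cases hsum : ∑ j, FF w x j ⬝ᵥ FF w p j = 0
  · refine ⟨Function.update (FF w p) i ((2 : ℝ) • FF w p i), fun z hz h => ?_, ?_⟩
    · refine good z hz fun j => ?_
      have h1 := h j
      by_cases hj : j = i
      · rw [hj, Function.update_self, smul_dotProduct, smul_eq_mul] at h1
        rw [hj]
        exact (mul_eq_zero.1 h1).resolve_left two_ne_zero
      · rw [Function.update_of_ne hj] at h1
        exact h1
    · rintro ⟨y, y1, y2⟩
      have h1 := mlem H r1 r2 (x := x) (e := Function.update (FF w p) i ((2 : ℝ) • FF w p i))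
        (y := y) (fun j => ?_) y1 y2
      · have h2 : ∑ j, FF w x j ⬝ᵥ Function.update (FF w p) i ((2 : ℝ) • FF w p i) j =
            ∑ j, FF w x j ⬝ᵥ FF w p j + FF w x i ⬝ᵥ FF w p i := by
          rw [← Finset.add_sum_erase _ _ (Finset.mem_univ i),
            ← Finset.add_sum_erase _ (fun j => FF w x j ⬝ᵥ FF w p j) (Finset.mem_univ i)]
          have h3 : ∑ j ∈ Finset.univ.erase i,
              FF w x j ⬝ᵥ Function.update (FF w p) i ((2 : ℝ) • FF w p i) j =
              ∑ j ∈ Finset.univ.erase i, FF w x j ⬝ᵥ FF w p j := by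
            refine Finset.sum_congr rfl fun j hj => ?_
            rw [Function.update_of_ne (Finset.ne_of_mem_erase hj)]
          rw [h3, Function.update_self, dotProduct_smul, smul_eq_mul]
          ring
        rw [h2, hsum, zero_add, dotProduct_comm] at h1
        exact nz h1
      · by_cases hj : j = i
        · refine ⟨1 / 2, ?_⟩
          rw [hj, Function.update_self, smul_smul]
          norm_num
        · refine ⟨1, ?_⟩
          rw [Function.update_of_ne hj, one_smul]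
  · refine ⟨FF w p, good, ?_⟩
    rintro ⟨y, y1, y2⟩
    exact hsum (mlem H r1 r2 (fun j => ⟨1, by rw [one_smul]⟩) y1 y2)

end

end Pool.Agent.J4H76.TR
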